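import Pool.Agent.N332.GK.Defs

/-!
# Project GK (helper332), leaf P2: facts on the coefficients `hh` (helper51)
-/

set_option autoImplicit false

namespace Pool.Agent.N51.GK

open Pool.Agent.N332.GK

theorem sg_nonneg (j : ℝ) : 0 ≤ sg j := by
  unfold sg
  positivity

theorem sg_mono {a b : ℝ} (ha : 1 ≤ a) (hab : a ≤ b) : sg a ≤ sg b := by
  unfold sg
  have h1 : 1 / b ≤ 1 / a := one_div_le_one_div_of_le (by linarith) hab
  have h2 : 1 / a ≤ 1 := by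
    rw [div_le_one (by linarith)]
    exact ha
  have h3 : (1 - 1 / a) ^ 2 ≤ (1 - 1 / b) ^ 2 := pow_le_pow_left₀ (by linarith) (by linarith) 2
  linarith

theorem hh_zero : hh 0 = 32 / 21 := rfl

theorem hh_one : hh 1 = 160 / 81 := rfl

theorem hh_succ (i : ℕ) : hh (i + 2) = hh (i + 1) + sg ((i : ℝ) + 6) := rfl

theorem hh_pos : ∀ i : ℕ, 0 < hh i
  | 0 => by rw [hh_zero]; norm_num
  | 1 => by rw [hh_one]; norm_num
  | (i + 2) => by
    rw [hh_succ]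
    have := hh_pos (i + 1)
    have := sg_nonneg ((i : ℝ) + 6)
    linarith

theorem f2 (i : ℕ) : hh (i + 1) ≤ ((i : ℝ) + 5) * sg ((i : ℝ) + 6) := by
  induction i with
  | zero =>
    rw [hh_one]
    unfold sg
    norm_num
  | succ i ih =>
    rw [hh_succ]
    have h1 : sg ((i : ℝ) + 6) ≤ sg (((i + 1 : ℕ) : ℝ) + 6) := by
      apply sg_mono
      · have : (0 : ℝ) ≤ i := Nat.cast_nonneg _
        linarith
      · push_cast
        linarith
    have h2 : (0 : ℝ) ≤ i := Nat.cast_nonneg _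
    have h3 : ((i : ℝ) + 6) * sg ((i : ℝ) + 6) ≤ ((i : ℝ) + 6) * sg (((i + 1 : ℕ) : ℝ) + 6) :=
      mul_le_mul_of_nonneg_left h1 (by linarith)
    push_cast at h3 ⊢
    linarith

theorem hh_2 : hh 2 = 160 / 81 + 16 / 27 * (25 / 36) := by
  rw [show (2 : ℕ) = 0 + 2 from rfl, hh_succ, hh_one]
  unfold sg
  norm_num

theorem hh_3 : hh 3 = 160 / 81 + 16 / 27 * (25 / 36) + 16 / 27 * (36 / 49) := by
  rw [show (3 : ℕ) = 1 + 2 from rfl, hh_succ, hh_2]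
  unfold sg
  norm_num

theorem hh_4 : hh 4 = 160 / 81 + 16 / 27 * (25 / 36) + 16 / 27 * (36 / 49) + 16 / 27 * (49 / 64) := by
  rw [show (4 : ℕ) = 2 + 2 from rfl, hh_succ, hh_3]
  unfold sg
  norm_num

theorem hh_5 : hh 5 = 160 / 81 + 16 / 27 * (25 / 36) + 16 / 27 * (36 / 49) + 16 / 27 * (49 / 64) +
    16 / 27 * (64 / 81) := by
  rw [show (5 : ℕ) = 3 + 2 from rfl, hh_succ, hh_4]
  unfold sg
  norm_num

/-- the rational inequality -/
theorem rat (k : ℝ) (hk : 7 ≤ k) :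
    sg k + (k - 2) * sg (k + 1) ≤ k * sg (k - 1) := by
  obtain ⟨m, rfl⟩ : ∃ m, k = m + 7 := ⟨k - 7, by ring⟩
  have hm : 0 ≤ m := by linarith
  have e : (m + 7) * sg (m + 7 - 1) - (sg (m + 7) + (m + 7 - 2) * sg (m + 7 + 1)) =
      16 / 27 * ((33676 + 38432 * m + 17494 * m ^ 2 + 4116 * m ^ 3 + 532 * m ^ 4 + 36 * m ^ 5 + m ^ 6) / ((m + 6) ^ 2 * (m + 7) ^ 2 * (m + 8) ^ 2)) := by
    unfold sg
    have h1 : m + 6 ≠ 0 := by positivity
    have h2 : m + 7 ≠ 0 := by positivity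
    have h3 : m + 8 ≠ 0 := by positivity
    have h4 : m + 7 - 1 = m + 6 := by ring
    have h5 : m + 7 + 1 = m + 8 := by ring
    rw [h4, h5]
    field_simp
    ring
  have h6 : 0 ≤ 16 / 27 * ((33676 + 38432 * m + 17494 * m ^ 2 + 4116 * m ^ 3 + 532 * m ^ 4 + 36 * m ^ 5 + m ^ 6) / ((m + 6) ^ 2 * (m + 7) ^ 2 * (m + 8) ^ 2)) := by
    positivity
  linarith

theorem f3' (i : ℕ) : ((i : ℝ) + 4) * (sg ((i : ℝ) + 7) + sg ((i : ℝ) + 6)) ≤ 3 * hh (i + 1) := by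
  induction i with
  | zero =>
    rw [hh_one]
    unfold sg
    norm_num
  | succ i ih =>
    rw [hh_succ]
    have h0 : (0 : ℝ) ≤ i := Nat.cast_nonneg _
    have h1 := rat ((i : ℝ) + 7) (by linarith)
    have e1 : (i : ℝ) + 7 + 1 = (i : ℝ) + 8 := by ring
    have e2 : (i : ℝ) + 7 - 1 = (i : ℝ) + 6 := by ring
    rw [e1, e2] at h1
    push_cast
    have e3 : (i : ℝ) + 1 + 7 = (i : ℝ) + 8 := by ring
    have e4 : (i : ℝ) + 1 + 6 = (i : ℝ) + 7 := by ring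
    rw [e3, e4]
    linarith

theorem f3 (i : ℕ) : ((i : ℝ) + 3) * hh (i + 2) ≤ ((i : ℝ) + 6) * hh i := by
  rcases i with _ | i
  · rw [hh_2, hh_zero]
    norm_num
  · have h1 := f3' i
    have e1 : hh (i + 1 + 2) = hh (i + 1) + sg ((i : ℝ) + 6) + sg ((i : ℝ) + 7) := by
      rw [hh_succ, hh_succ]
      push_cast
      rw [show (i : ℝ) + 1 + 6 = (i : ℝ) + 7 by ring]
    rw [e1]
    push_cast
    linarith

theorem low (i : ℕ) : 23 / 50 * ((i : ℝ) + 9) - 2 / 5 ≤ hh (i + 5) := by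
  induction i with
  | zero =>
    rw [hh_5]
    norm_num
  | succ i ih =>
    rw [show i + 1 + 5 = (i + 4) + 2 by ring, hh_succ]
    have h0 : (0 : ℝ) ≤ i := Nat.cast_nonneg _
    have h1 : sg 9 ≤ sg (((i + 4 : ℕ) : ℝ) + 6) := by
      apply sg_mono (by norm_num)
      push_cast
      linarith
    have h2 : (23 / 50 : ℝ) ≤ sg 9 := by
      unfold sg
      norm_num
    rw [show i + 4 + 1 = i + 5 by ring]
    push_cast at h1 ⊢
    linarith

theorem f4 (i : ℕ) : ((i : ℝ) + 6) ≤ Kb (1 / ((i : ℝ) + 6)) * hh (i + 2) := by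
  match i with
  | 0 =>
    rw [hh_2]
    unfold Kb
    norm_num
  | 1 =>
    rw [hh_3]
    unfold Kb
    norm_num
  | 2 =>
    rw [hh_4]
    unfold Kb
    norm_num
  | (i + 3) =>
    have h0 : (0 : ℝ) ≤ i := Nat.cast_nonneg _
    have h1 := low i
    rw [show i + 3 + 2 = i + 5 by ring]
    push_cast
    rw [show (i : ℝ) + 3 + 6 = (i : ℝ) + 9 by ring]
    have h2 : 0 < Kb (1 / ((i : ℝ) + 9)) := by
      unfold Kb
      positivity
    refine le_trans ?_ (mul_le_mul_of_nonneg_left h1 h2.le)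
    unfold Kb
    have h3 : (0 : ℝ) < (i : ℝ) + 9 := by linarith
    have e : (87 / 40 + 107 / 50 * (1 / ((i : ℝ) + 9))) * (23 / 50 * ((i : ℝ) + 9) - 2 / 5) -
        ((i : ℝ) + 9) = ((87 / 40 * ((i : ℝ) + 9) + 107 / 50) * (23 / 50 * ((i : ℝ) + 9) - 2 / 5) -
          ((i : ℝ) + 9) ^ 2) / ((i : ℝ) + 9) := by
      field_simp
    have h4 : 0 ≤ ((87 / 40 * ((i : ℝ) + 9) + 107 / 50) * (23 / 50 * ((i : ℝ) + 9) - 2 / 5) -
          ((i : ℝ) + 9) ^ 2) / ((i : ℝ) + 9) := by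
      apply div_nonneg _ h3.le
      nlinarith
    linarith

/-- P2: facts on the coefficients `hh` -/
theorem hh_facts (i : ℕ) : 0 < hh i ∧ hh (i + 1) ≤ ((i : ℝ) + 5) * sg ((i : ℝ) + 6) ∧
    ((i : ℝ) + 3) * hh (i + 2) ≤ ((i : ℝ) + 6) * hh i ∧
    ((i : ℝ) + 6) ≤ Kb (1 / ((i : ℝ) + 6)) * hh (i + 2) :=
  ⟨hh_pos i, f2 i, f3 i, f4 i⟩

end Pool.Agent.N51.GK
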